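import Pool.Agent.Q26.PE.OR

/-!
# Project PE (helper44), job IN: if the words have finitely many types on a dense set then the group is finite
-/

set_option autoImplicit false

namespace Pool.Agent.Q26.PE.IN

open MvPolynomial Pool.Agent.Q44.SA Pool.Agent.Q44.PG Pool.Agent.Q44.PE
open Pool.Agent.Q190.SA (rel_exists rel_pt pt_smul agree_at eval2_smul)
open Pool.Agent.Q26.PE.OR (reach_pt reach_exists)

section
variable {K : Type} [Field K] {n : ℕ} {I : Ideal (MvPolynomial (Fin n) K)} {F : Type} [Field F]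
  {σ : K →+* F}

/-- all tuples of forms give multiples of the image -/
theorem mul_of_rel (χ : Mor I) {x y : Fin n → F} (hx : Pt σ I x) (h : χ.Rel σ x y) (l : Fin χ.p) :
    ∃ s : F, ∀ i, eval₂ σ x (χ.F l i) = s * y i := by
  obtain ⟨l0, ⟨a0, ha0⟩, c, hc, hy⟩ := h
  refine ⟨eval₂ σ x (χ.F l a0) / (eval₂ σ x (χ.F l0 a0) * c), fun i => ?_⟩
  have h1 := agree_at χ σ hx l l0 i a0
  rw [hy i]
  field_simp
  exact h1

end

theorem main (h : E_word) : E_inf := by
  intro K _ _ n I hIp hI S φ ψ h1 h2 A hA hVA ⟨T, hT, τ, hτ⟩ F _ σ x hx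
  classical
  -- the representatives
  obtain ⟨g, hg⟩ : ∃ g : T → Fin n → F, ∀ w y, Reach φ ψ σ w x y →
      ∃ w', τ w' = τ w ∧ Reach φ ψ σ w' x (g (τ w)) := by
    refine ⟨fun t => if h : ∃ e : Fin n → F, ∃ w', τ w' = t ∧ Reach φ ψ σ w' x e then h.choose
      else 0, fun w y hy => ?_⟩
    have h3 : ∃ e : Fin n → F, ∃ w', τ w' = τ w ∧ Reach φ ψ σ w' x e := ⟨y, w, rfl, hy⟩
    simp only [dif_pos h3]
    exact h3.choose_spec
  let _ : Fintype T := Fintype.ofFinite T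
  refine ⟨Finset.univ.image g, fun w y hy => ⟨g (τ w), Finset.mem_image_of_mem g (Finset.mem_univ _), ?_⟩⟩
  obtain ⟨w', hw', hy'⟩ := hg w y hy
  obtain ⟨e, he⟩ : ∃ e : Fin n → F, e = g (τ w) := ⟨_, rfl⟩
  rw [← he] at hy' ⊢
  obtain ⟨χ, hχ⟩ := h K n I hIp hI S φ ψ w
  obtain ⟨χ', hχ'⟩ := h K n I hIp hI S φ ψ w'
  have hD : ∀ l l' a b, χ.F l a * χ'.F l' b - χ.F l b * χ'.F l' a ∈ I := by
    intro l l' a b
    refine hVA.le ?_
    intro p hp t
    obtain ⟨y1, hy1⟩ := reach_exists (φ := φ) (ψ := ψ) hI (hA p hp) w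
    obtain ⟨y2, hy2⟩ := reach_exists (φ := φ) (ψ := ψ) hI (hA p hp) w'
    obtain ⟨c, hc, hcy⟩ := hτ w w' hw'.symm p hp y1 y2 hy1 hy2
    obtain ⟨s, hs⟩ := mul_of_rel χ (hA p hp) (hχ K (RingHom.id K) p y1 (hA p hp) hy1) l
    obtain ⟨s', hs'⟩ := mul_of_rel χ' (hA p hp) (hχ' K (RingHom.id K) p y2 (hA p hp) hy2) l'
    have e1 : ∀ i, eval (t • p) (χ.F l i) = t ^ χ.d l * (s * y1 i) := fun i => by
      have := eval2_smul (RingHom.id K) (χ.hom l i) t p
      rw [hs i, eval₂_id] at this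
      exact this
    have e2 : ∀ i, eval (t • p) (χ'.F l' i) = t ^ χ'.d l' * (s' * (c * y1 i)) := fun i => by
      have := eval2_smul (RingHom.id K) (χ'.hom l' i) t p
      rw [hs' i, eval₂_id, hcy, Pi.smul_apply, smul_eq_mul] at this
      exact this
    rw [map_sub, map_mul, map_mul, e1, e1, e2, e2]
    ring
  obtain ⟨l, ⟨a, ha⟩, c, hc, hyc⟩ := hχ F σ x y hx hy
  obtain ⟨l', ⟨b, hb⟩, c', hc', hec⟩ := hχ' F σ x e hx hy'
  have hprop : ∀ i j, y i * e j = y j * e i := by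
    intro i j
    have h3 := hx.2 _ (hD l l' i j)
    rw [← coe_eval₂Hom, map_sub, map_mul, map_mul, coe_eval₂Hom] at h3
    rw [hyc i, hyc j, hec i, hec j]
    linear_combination c * c' * h3
  have heb : e b ≠ 0 := by
    rw [hec b]
    exact mul_ne_zero hc' hb
  have hya : y a ≠ 0 := by
    rw [hyc a]
    exact mul_ne_zero hc ha
  have hyb : y b ≠ 0 := by
    intro h0
    have h3 := hprop a b
    rw [h0, zero_mul] at h3
    exact (mul_ne_zero hya heb) h3
  refine ⟨y b / e b, div_ne_zero hyb heb, ?_⟩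
  funext i
  rw [Pi.smul_apply, smul_eq_mul, div_mul_eq_mul_div, eq_div_iff heb]
  exact hprop i b

end Pool.Agent.Q26.PE.IN
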