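import Pool.Agent.Q44.PE.Stm

/-!
# Project PE (helper44), job OR: the closure of a set of points with finitely many types has a finite orbit
-/

set_option autoImplicit false

namespace Pool.Agent.Q26.PE.OR

open MvPolynomial Pool.Agent.Q44.SA Pool.Agent.Q44.PG Pool.Agent.Q44.PE
open Pool.Agent.Q190.SA (rel_exists rel_pt pt_smul)

section
variable {K : Type} [Field K] {n : ℕ} {I : Ideal (MvPolynomial (Fin n) K)} {S : Type}
  {φ ψ : S → Mor I} {F : Type} [Field F] {σ : K →+* F}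

theorem reach_pt (hI : Homog I) {x : Fin n → F} (hx : Pt σ I x) (w : List (S × Bool)) :
    ∀ y, Reach φ ψ σ w x y → Pt σ I y := by
  induction w with
  | nil =>
    rintro y ⟨c, hc, rfl⟩
    exact pt_smul hI σ hx hc
  | cons a w ih =>
    rintro y ⟨z, hz, hzy⟩
    exact rel_pt hI _ σ (ih z hz) hzy

theorem reach_exists (hI : Homog I) {x : Fin n → F} (hx : Pt σ I x) (w : List (S × Bool)) :
    ∃ y, Reach φ ψ σ w x y := by
  induction w with
  | nil => exact ⟨x, 1, one_ne_zero, (one_smul F x).symm⟩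
  | cons a w ih =>
    obtain ⟨z, hz⟩ := ih
    obtain ⟨y, hy⟩ := rel_exists (Lt φ ψ a) σ (reach_pt hI hx w z hz)
    exact ⟨y, z, hz, hy⟩

/-- `Van` does not change under nonzero multiples -/
theorem van_le {Y Y' : Set (Fin n → K)} (h : ∀ y' ∈ Y', ∃ y ∈ Y, ∃ c : K, y' = c • y) :
    Van Y ≤ Van Y' := by
  intro f hf y' hy' t
  obtain ⟨y, hy, c, rfl⟩ := h y' hy'
  rw [smul_smul]
  exact hf y hy _

end

theorem main : E_orb := by
  intro K _ _ n I hI S φ ψ h1 h2 A hA ⟨T, hT, τ, hτ⟩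
  obtain ⟨Y, hY⟩ : ∃ Y : List (S × Bool) → Set (Fin n → K),
      ∀ w y, y ∈ Y w ↔ ∃ x ∈ A, Reach φ ψ (RingHom.id K) w x y :=
    ⟨fun w => {y | ∃ x ∈ A, Reach φ ψ (RingHom.id K) w x y}, fun _ _ => Iff.rfl⟩
  have hYpt : ∀ w, ∀ y ∈ Y w, Pt (RingHom.id K) I y := by
    intro w y hy
    obtain ⟨x, hx, hxy⟩ := (hY w y).1 hy
    exact reach_pt hI (hA x hx) w y hxy
  have hle : ∀ w w', τ w = τ w' → Van (Y w) ≤ Van (Y w') := by
    intro w w' hw
    refine van_le fun y' hy' => ?_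
    obtain ⟨x, hx, hxy⟩ := (hY w' y').1 hy'
    obtain ⟨y, hy⟩ := reach_exists (φ := φ) (ψ := ψ) hI (hA x hx) w
    obtain ⟨c, -, hc⟩ := hτ w w' hw x hx y y' hy hxy
    exact ⟨y, (hY w y).2 ⟨x, hx, hy⟩, c, hc⟩
  have heq : ∀ w w', τ w = τ w' → Van (Y w) = Van (Y w') := fun w w' h =>
    le_antisymm (hle w w' h) (hle w' w h.symm)
  refine ⟨Set.range fun w => Van (Y w), ?_, ⟨[], ?_⟩, ?_, ?_⟩
  · classical
    obtain ⟨g, hg⟩ : ∃ g : T → Ideal (MvPolynomial (Fin n) K), ∀ w, g (τ w) = Van (Y w) := by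
      refine ⟨fun t => if h : ∃ w, τ w = t then Van (Y h.choose) else ⊥, fun w => ?_⟩
      have h : ∃ w', τ w' = τ w := ⟨w, rfl⟩
      simp only [dif_pos h]
      exact heq _ _ h.choose_spec
    refine (Set.finite_range g).subset ?_
    rintro _ ⟨w, rfl⟩
    exact ⟨τ w, hg w⟩
  · apply le_antisymm
    · refine van_le fun y hy => ?_
      exact ⟨y, (hY [] y).2 ⟨y, hy, 1, one_ne_zero, (one_smul K y).symm⟩, 1, (one_smul K y).symm⟩
    · refine van_le fun y hy => ?_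
      obtain ⟨x, hx, c, hc, hxy⟩ := (hY [] y).1 hy
      exact ⟨x, hx, c, hxy⟩
  · rintro J ⟨w, rfl⟩
    exact ⟨Y w, hYpt w, rfl⟩
  · have key : ∀ (a : S × Bool) (w : List (S × Bool)), Im (Lt φ ψ a) (Van (Y w)) =
        Van (Y (a :: w)) := by
      intro a w
      rw [Pool.Agent.Q96.PG.IM.im K n I hI (Lt φ ψ a) (Y w) (hYpt w)]
      congr 1
      ext y'
      rw [hY]
      constructor
      · rintro ⟨y, hy, hyy⟩
        obtain ⟨x, hx, hxy⟩ := (hY w y).1 hy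
        exact ⟨x, hx, y, hxy, hyy⟩
      · rintro ⟨x, hx, z, hz, hzy⟩
        exact ⟨z, (hY w z).2 ⟨x, hx, hz⟩, hzy⟩
    rintro s _ ⟨w, rfl⟩
    exact ⟨⟨(s, true) :: w, (key (s, true) w).symm⟩, ⟨(s, false) :: w, (key (s, false) w).symm⟩⟩

end Pool.Agent.Q26.PE.OR
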